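import Pool.Agent.U136.DS.Stm

set_option autoImplicit false

/-! Project DS, part PRB: the probability that all triads of a family are near-resonant. -/

namespace Pool.Agent.U103.DS

open MeasureTheory ProbabilityTheory Pool.Agent.N983.RT Pool.Agent.U136.DS

/-- One variable with bounded density, independent of the others. -/
theorem one_var {Ω β : Type} [MeasurableSpace Ω] [MeasurableSpace β] (μ : Measure Ω)
    [IsProbabilityMeasure μ] (V : Ω → ℝ) (W : Ω → β) (hV : Measurable V) (hW : Measurable W)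
    (hind : IndepFun V W μ) (D : ℝ)
    (hD : ∀ x h : ℝ, 0 ≤ h → μ {ω | x ≤ V ω ∧ V ω ≤ x + h} ≤ ENNReal.ofReal (D * h))
    (a b : ℝ) (ha : a ≠ 0) (hb : 0 ≤ b) (f : β → ℝ) (hf : Measurable f) (P : Set β)
    (hP : MeasurableSet P) :
    μ {ω | W ω ∈ P ∧ |a * V ω + f (W ω)| < b} ≤
      ENNReal.ofReal (D * (2 * b / |a|)) * μ {ω | W ω ∈ P} := by
  have hB : MeasurableSet {p : ℝ × β | p.2 ∈ P ∧ |a * p.1 + f p.2| < b} := by
    have h1 : MeasurableSet {p : ℝ × β | p.2 ∈ P} := measurable_snd hP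
    have h2 : MeasurableSet {p : ℝ × β | |a * p.1 + f p.2| < b} :=
      measurableSet_lt ((measurable_fst.const_mul a).add (hf.comp measurable_snd)).abs
        measurable_const
    exact h1.inter h2
  have h1 : μ {ω | W ω ∈ P ∧ |a * V ω + f (W ω)| < b} =
      (μ.map fun ω => (V ω, W ω)) {p : ℝ × β | p.2 ∈ P ∧ |a * p.1 + f p.2| < b} := by
    rw [Measure.map_apply (hV.prodMk hW) hB]
    rfl
  have h2 : (μ.map fun ω => (V ω, W ω)) = (μ.map V).prod (μ.map W) :=
    (indepFun_iff_map_prod_eq_prod_map_map hV.aemeasurable hW.aemeasurable).1 hind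
  have : IsProbabilityMeasure (μ.map V) := Measure.isProbabilityMeasure_map hV.aemeasurable
  have : IsProbabilityMeasure (μ.map W) := Measure.isProbabilityMeasure_map hW.aemeasurable
  rw [h1, h2, Measure.prod_apply_symm hB]
  have h3 : ∀ w, (μ.map V) ((fun v => (v, w)) ⁻¹'
      {p : ℝ × β | p.2 ∈ P ∧ |a * p.1 + f p.2| < b}) ≤
      P.indicator (fun _ => ENNReal.ofReal (D * (2 * b / |a|))) w := by
    intro w
    by_cases hw : w ∈ P
    · rw [Set.indicator_of_mem hw]
      have h4 : ((fun v => (v, w)) ⁻¹' {p : ℝ × β | p.2 ∈ P ∧ |a * p.1 + f p.2| < b}) ⊆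
          Set.Icc (-f w / a - b / |a|) (-f w / a - b / |a| + 2 * b / |a|) := by
        intro v hv
        have hv2 : |a * v + f w| < b := hv.2
        have h5 : |v - -f w / a| ≤ b / |a| := by
          rw [le_div_iff₀ (abs_pos.2 ha), ← abs_mul]
          have : (v - -f w / a) * a = a * v + f w := by field_simp; ring
          rw [this]
          exact hv2.le
        rw [abs_le] at h5
        constructor
        · linarith [h5.1]
        · have : 2 * b / |a| = b / |a| + b / |a| := by ring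
          rw [this]
          linarith [h5.2]
      refine (measure_mono h4).trans ?_
      rw [Measure.map_apply hV measurableSet_Icc]
      exact hD _ _ (by positivity)
    · rw [Set.indicator_of_notMem hw]
      have h4 : ((fun v => (v, w)) ⁻¹' {p : ℝ × β | p.2 ∈ P ∧ |a * p.1 + f p.2| < b}) = ∅ := by
        ext v
        simp [hw]
      rw [h4, measure_empty]
  refine (lintegral_mono h3).trans ?_
  rw [lintegral_indicator hP, setLIntegral_const, Measure.map_apply hW hP]
  rfl

/-- The dispersion of a configuration. -/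
noncomputable def lamz (σ : ℝ) (e : Wv → ℝ) (z : Sym2 Wv → ℝ) (k : Wv) : ℝ :=
  e k * nsq k ^ (σ / 2) * z s(k, -k)

/-- The near-resonance condition for a configuration. -/
def NR (σ τ : ℝ) (e : Wv → ℝ) (m : Wv) (z : Sym2 Wv → ℝ) (k : Wv) : Prop :=
  |lamz σ e z k + lamz σ e z (-(k + m)) + lamz σ e z m| < mx k (-(k + m)) m ^ (τ / 2)

theorem lamz_meas (σ : ℝ) (e : Wv → ℝ) (k : Wv) : Measurable fun z => lamz σ e z k := by
  unfold lamz
  exact (measurable_pi_apply _).const_mul _

theorem NR_meas (σ τ : ℝ) (e : Wv → ℝ) (m k : Wv) : MeasurableSet {z | NR σ τ e m z k} := by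
  unfold NR
  apply measurableSet_lt
  · exact (((lamz_meas σ e k).add (lamz_meas σ e _)).add (lamz_meas σ e m)).abs
  · exact measurable_const

theorem idx_neg (x : Wv) : s(-x, - -x) = s(x, -x) := by
  rw [neg_neg, Sym2.eq_swap]

/-- The condition only depends on three variables. -/
theorem NR_congr {σ τ : ℝ} {e : Wv → ℝ} {m k : Wv} {z z' : Sym2 Wv → ℝ}
    (h : ∀ c ∈ vr m k, z c = z' c) (hm : z s(m, -m) = z' s(m, -m)) :
    NR σ τ e m z k ↔ NR σ τ e m z' k := by
  unfold NR lamz
  rw [h s(k, -k) (by simp [vr]), hm, idx_neg, h s(k + m, -(k + m)) (by simp [vr])]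

theorem nsq_neg' (k : Wv) : nsq (-k) = nsq k := by
  unfold nsq; simp

theorem nsq_nonneg' (k : Wv) : 0 ≤ nsq k := Finset.sum_nonneg fun i _ => sq_nonneg _

theorem nsq_pos' {k : Wv} (hk : k ≠ 0) : 0 < nsq k := by
  obtain ⟨i, hi⟩ : ∃ i, k i ≠ 0 := by
    by_contra h
    push Not at h
    exact hk (funext h)
  unfold nsq
  refine Finset.sum_pos' (fun i _ => sq_nonneg _) ⟨i, Finset.mem_univ _, ?_⟩
  have : (k i : ℝ) ≠ 0 := by exact_mod_cast hi
  positivity

theorem nsq_add_le (k l : Wv) : nsq (k + l) ≤ 2 * (nsq k + nsq l) := by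
  unfold nsq
  rw [← Finset.sum_add_distrib, Finset.mul_sum]
  refine Finset.sum_le_sum fun i _ => ?_
  simp only [Pi.add_apply, Int.cast_add]
  nlinarith [sq_nonneg ((k i : ℝ) - l i)]

theorem mx_le (x y m : Wv) (hm : m = -(x + y)) (hxy : nsq y ≤ nsq x) :
    max (nsq x) (max (nsq y) (nsq m)) ≤ 4 * nsq x := by
  have h1 := nsq_nonneg' x
  have h2 : nsq m ≤ 4 * nsq x := by
    rw [hm, nsq_neg']
    have := nsq_add_le x y
    linarith
  exact max_le (by linarith) (max_le (by linarith) h2)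

/-- The elementary bound. -/
theorem rate_le {D σ τ X K M : ℝ} (hD : 0 ≤ D) (hσ : 0 < σ) (hτ : 0 < τ) (hτσ : τ < σ)
    (hK : 0 < K) (hKX : K ≤ X) (hM0 : 0 ≤ M) (hM : M ≤ 4 * X) :
    D * (2 * M ^ (τ / 2) / X ^ (σ / 2)) ≤ 2 * D * 2 ^ σ * K ^ ((τ - σ) / 2) := by
  have hX : 0 < X := lt_of_lt_of_le hK hKX
  have h1 : M ^ (τ / 2) ≤ 2 ^ σ * X ^ (τ / 2) := by
    calc M ^ (τ / 2) ≤ (4 * X) ^ (τ / 2) := Real.rpow_le_rpow hM0 hM (by linarith)
      _ = 2 ^ τ * X ^ (τ / 2) := by
        rw [Real.mul_rpow (by norm_num) hX.le]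
        congr 1
        rw [show (4 : ℝ) = 2 ^ (2 : ℝ) by norm_num, ← Real.rpow_mul (by norm_num)]
        congr 1
        ring
      _ ≤ 2 ^ σ * X ^ (τ / 2) := by
        gcongr
        · norm_num
  have h2 : X ^ (τ / 2) / X ^ (σ / 2) = X ^ ((τ - σ) / 2) := by
    rw [← Real.rpow_sub hX]
    congr 1
    ring
  have h3 : X ^ ((τ - σ) / 2) ≤ K ^ ((τ - σ) / 2) :=
    Real.rpow_le_rpow_of_nonpos hK hKX (by linarith)
  calc D * (2 * M ^ (τ / 2) / X ^ (σ / 2)) ≤ D * (2 * (2 ^ σ * X ^ (τ / 2)) / X ^ (σ / 2)) := by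
        gcongr
    _ = 2 * D * 2 ^ σ * (X ^ (τ / 2) / X ^ (σ / 2)) := by ring
    _ = 2 * D * 2 ^ σ * X ^ ((τ - σ) / 2) := by rw [h2]
    _ ≤ 2 * D * 2 ^ σ * K ^ ((τ - σ) / 2) := by gcongr

open Classical in
/-- The induction. -/
theorem main (D σ τ : ℝ) (hD : 0 ≤ D) (hσ : 0 < σ) (hτ : 0 < τ) (hτσ : τ < σ)
    (Ω : Type) [MeasurableSpace Ω] (μ : Measure Ω) [IsProbabilityMeasure μ]
    (Z : Sym2 Wv → Ω → ℝ) (e : Wv → ℝ) (hZ : ∀ c, Measurable (Z c)) (hind : iIndepFun Z μ)
    (he : Sgn e) (hdens : Dens μ Z D) (m : Wv) (T : Finset Wv)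
    (h0 : ∀ k ∈ T, k ≠ 0 ∧ k ≠ -m)
    (hc : ∀ k ∈ T, (vr m k).card = 2 ∧ s(m, -m) ∉ vr m k)
    (hd : ∀ k ∈ T, ∀ k' ∈ T, k ≠ k' → Disjoint (vr m k) (vr m k')) :
    μ {ω | ∀ k ∈ T, NR σ τ e m (fun c => Z c ω) k} ≤
      ENNReal.ofReal (∏ k ∈ T, 2 * D * 2 ^ σ * nsq k ^ ((τ - σ) / 2)) := by
  induction T using Finset.induction_on with
  | empty => simp
  | insert k T hk ih =>
    have ih' := ih (fun j hj => h0 j (Finset.mem_insert_of_mem hj))
      (fun j hj => hc j (Finset.mem_insert_of_mem hj))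
      (fun j hj j' hj' => hd j (Finset.mem_insert_of_mem hj) j' (Finset.mem_insert_of_mem hj'))
    obtain ⟨hk0, hkm⟩ := h0 k (Finset.mem_insert_self _ _)
    obtain ⟨hcard, hmv⟩ := hc k (Finset.mem_insert_self _ _)
    have hl0 : -(k + m) ≠ 0 := by
      intro h
      apply hkm
      rw [neg_eq_zero] at h
      exact eq_neg_of_add_eq_zero_left h
    -- the longer one
    obtain ⟨x, y, hx0, hxk, hv, hmx, hsum⟩ : ∃ x y : Wv, x ≠ 0 ∧ nsq k ≤ nsq x ∧
        vr m k = {s(x, -x), s(y, -y)} ∧ mx k (-(k + m)) m ≤ 4 * nsq x ∧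
        ∀ z, lamz σ e z k + lamz σ e z (-(k + m)) = lamz σ e z x + lamz σ e z y := by
      rcases le_total (nsq (-(k + m))) (nsq k) with h | h
      · refine ⟨k, -(k + m), hk0, le_rfl, ?_, ?_, fun z => rfl⟩
        · rw [idx_neg]; rfl
        · exact mx_le k (-(k + m)) m (by abel) h
      · refine ⟨-(k + m), k, hl0, h, ?_, ?_, fun z => add_comm _ _⟩
        · rw [idx_neg]
          unfold vr
          exact Finset.pair_comm _ _
        · have := mx_le (-(k + m)) k m (by abel) h
          refine le_trans (le_of_eq ?_) this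
          unfold mx
          rw [← max_assoc, max_comm (nsq k), max_assoc]
    have hne : s(x, -x) ≠ s(y, -y) := by
      intro h
      rw [hv, h] at hcard
      simp at hcard
    have hxv : s(x, -x) ∈ vr m k := by rw [hv]; simp
    have hyv : s(y, -y) ∈ vr m k := by rw [hv]; simp
    let U : Finset (Sym2 Wv) := insert s(m, -m) (insert s(y, -y) (T.biUnion (vr m)))
    have hxU : s(x, -x) ∉ U := by
      simp only [U, Finset.mem_insert, Finset.mem_biUnion, not_or, not_exists, not_and]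
      refine ⟨fun h => hmv (h ▸ hxv), hne, fun j hj hjv => ?_⟩
      have hkj : k ≠ j := fun h => hk (h ▸ hj)
      exact Finset.disjoint_left.1 (hd k (Finset.mem_insert_self _ _) j
        (Finset.mem_insert_of_mem hj) hkj) hxv hjv
    let W : Ω → (Sym2 Wv → ℝ) := fun ω c => if c ∈ U then Z c ω else 0
    have hWU : ∀ ω, ∀ c ∈ U, W ω c = Z c ω := fun ω c hcU => if_pos hcU
    have hWm : Measurable W := by
      apply measurable_pi_lambda
      intro c
      by_cases h : c ∈ U
      · simp only [W, h, if_true]; exact hZ c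
      · simp only [W, h, if_false]; exact measurable_const
    have hindW : IndepFun (Z s(x, -x)) W μ := by
      have h1 := hind.indepFun_finset {s(x, -x)} U (Finset.disjoint_singleton_left.2 hxU) hZ
      have h2 : Measurable fun (v : ({s(x, -x)} : Finset (Sym2 Wv)) → ℝ) =>
          v ⟨s(x, -x), Finset.mem_singleton_self _⟩ := measurable_pi_apply _
      have h3 : Measurable fun (w : U → ℝ) (c : Sym2 Wv) => if h : c ∈ U then w ⟨c, h⟩ else 0 := by
        apply measurable_pi_lambda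
        intro c
        by_cases h : c ∈ U
        · simp only [h, dif_pos]; exact measurable_pi_apply _
        · simp only [h, dif_neg, not_false_eq_true]; exact measurable_const
      have h4 := h1.comp h2 h3
      have h5 : ((fun (w : U → ℝ) (c : Sym2 Wv) => if h : c ∈ U then w ⟨c, h⟩ else 0) ∘
          fun a (i : U) => Z i a) = W := by
        funext ω c
        by_cases h : c ∈ U
        · simp [W, h]
        · simp [W, h]
      rw [h5] at h4
      exact h4
    let P : Set (Sym2 Wv → ℝ) := {z | ∀ j ∈ T, NR σ τ e m z j}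
    have hPm : MeasurableSet P := by
      have : P = ⋂ j ∈ T, {z | NR σ τ e m z j} := by
        ext z; simp [P]
      rw [this]
      exact Finset.measurableSet_biInter T fun j _ => NR_meas σ τ e m j
    have hPiff : ∀ ω, W ω ∈ P ↔ ∀ j ∈ T, NR σ τ e m (fun c => Z c ω) j := by
      intro ω
      refine forall₂_congr fun j hj => ?_
      apply NR_congr
      · intro c hcj
        apply hWU
        simp only [U, Finset.mem_insert, Finset.mem_biUnion]
        exact Or.inr (Or.inr ⟨j, hj, hcj⟩)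
      · apply hWU
        simp [U]
    let f : (Sym2 Wv → ℝ) → ℝ := fun z => lamz σ e z y + lamz σ e z m
    have hf : Measurable f := (lamz_meas σ e y).add (lamz_meas σ e m)
    have hex : |e x| = 1 := (he x hx0).2
    have hxpos : 0 < nsq x := nsq_pos' hx0
    have hpow : 0 < nsq x ^ (σ / 2) := Real.rpow_pos_of_pos hxpos _
    have ha : |e x * nsq x ^ (σ / 2)| = nsq x ^ (σ / 2) := by
      rw [abs_mul, hex, one_mul, abs_of_pos hpow]
    have ha0 : e x * nsq x ^ (σ / 2) ≠ 0 := by
      intro h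
      rw [h, abs_zero] at ha
      exact hpow.ne ha
    have hmx0 : 0 ≤ mx k (-(k + m)) m := (nsq_nonneg' k).trans (le_max_left _ _)
    have key := one_var μ (Z s(x, -x)) W (hZ _) hWm hindW D (hdens _)
      (e x * nsq x ^ (σ / 2)) (mx k (-(k + m)) m ^ (τ / 2)) ha0 (Real.rpow_nonneg hmx0 _) f hf P hPm
    have hsub : {ω | ∀ j ∈ insert k T, NR σ τ e m (fun c => Z c ω) j} ⊆
        {ω | W ω ∈ P ∧ |e x * nsq x ^ (σ / 2) * Z s(x, -x) ω + f (W ω)| <
          mx k (-(k + m)) m ^ (τ / 2)} := by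
      intro ω hω
      refine ⟨(hPiff ω).2 fun j hj => hω j (Finset.mem_insert_of_mem hj), ?_⟩
      have h1 := hω k (Finset.mem_insert_self _ _)
      unfold NR at h1
      rw [hsum] at h1
      have h2 : f (W ω) = lamz σ e (fun c => Z c ω) y + lamz σ e (fun c => Z c ω) m := by
        simp only [f, lamz]
        rw [hWU ω s(y, -y) (by simp [U]), hWU ω s(m, -m) (by simp [U])]
      rw [h2, ← add_assoc]
      exact h1
    rw [Finset.prod_insert hk, ENNReal.ofReal_mul (by
      have := Real.rpow_nonneg (nsq_nonneg' k) ((τ - σ) / 2)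
      positivity)]
    refine (measure_mono hsub).trans (key.trans ?_)
    refine mul_le_mul' ?_ ?_
    · apply ENNReal.ofReal_le_ofReal
      rw [ha]
      exact rate_le hD hσ hτ hτσ (nsq_pos' hk0) hxk hmx0 hmx
    · have : {ω | W ω ∈ P} = {ω | ∀ j ∈ T, NR σ τ e m (fun c => Z c ω) j} := by
        ext ω; exact hPiff ω
      rw [this]
      exact ih'

theorem t_PRB : S_PRB := by
  intro D σ τ hD hσ hτ hτσ Ω _ μ _ Z e hZ hind he hdens m T hm h0 hc hd
  refine (measure_mono ?_).trans (main D σ τ hD hσ hτ hτσ Ω μ Z e hZ hind he hdens m T h0 hc hd)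
  intro ω hω k hk
  have h1 := hω k hk
  unfold near at h1
  split_ifs at h1 with h2
  · have h3 := h2.2.2.2
    rw [one_mul] at h3
    exact h3
  · exact absurd rfl h1

end Pool.Agent.U103.DS
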